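import Pool.Agent.H28BS.Biclique

/-!
# Complete bipartite pieces of unbounded size in `Γ_n`, `n ≡ 2 (mod 4)`
-/

namespace Pool.Agent.Results.MP_350f26_co.BicliquesTwoModFour

open Pool.Agent.H28BS

/-- Let `s ∈ {2, 10, 26}`, `g = 4 * 2^a * 10^b * 26^c` and `n = 2sg + s + g` (so `n ≡ 2 (mod 4)`).  There are a
set `S0` of even vertices and a set `S1` of odd vertices of `Γ_n`, each with at least `(b+1)(c+1)` elements
and together with at least `3(b+1)(c+1)`, such that every element of `S0` is adjacent to every element of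
`S1`. -/
theorem result (a b c s g n : ℕ) (hs : s = 2 ∨ s = 10 ∨ s = 26)
    (hg : g = 4 * 2 ^ a * 10 ^ b * 26 ^ c) (hn : n = 2 * s * g + s + g) :
    ∃ S0 S1 : Finset (Vertex n), (b + 1) * (c + 1) ≤ S0.card ∧ (b + 1) * (c + 1) ≤ S1.card ∧
      3 * ((b + 1) * (c + 1)) ≤ S0.card + S1.card ∧
      (∀ x ∈ S0, ¬ ∃ r ∈ x.1, r % 4 = 2) ∧ (∀ x ∈ S1, ∃ r ∈ x.1, r % 4 = 2) ∧
      ∀ x ∈ S0, ∀ y ∈ S1, Adj n x y :=
  biclique a b c hs hg hn

end Pool.Agent.Results.MP_350f26_co.BicliquesTwoModFour
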