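import Pool.Agent.H28BS.CliqueOne

/-!
# Looped cliques of unbounded size in `Γ_n`, `n ≡ 1 (mod 4)`

For `n = 3g + 1` with `g = 4 * 2^a * 10^b * 26^c` the base sequences obtained by composing Golay pairs of
length `g` and of length one realise all edges and loops on a set of at least `4(b+1)(c+1) - 1` vertices.
-/

namespace Pool.Agent.Results.MP_350f26_co.CliquesOneModFour

open Pool.Agent.H28BS

/-- For `g = 4 * 2^a * 10^b * 26^c` and `n = 3g + 1` (so `n ≡ 1 (mod 4)`) the graph `Γ_n` contains a complete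
graph with a loop at every vertex on at least `4(b+1)(c+1) - 1` vertices. -/
theorem result (a b c n : ℕ) (hn : n = 3 * (4 * 2 ^ a * 10 ^ b * 26 ^ c) + 1) :
    ∃ S : Finset (Vertex n), 4 * (b + 1) * (c + 1) ≤ S.card + 1 ∧ ∀ x ∈ S, ∀ y ∈ S, Adj n x y :=
  clique_one a b c hn

end Pool.Agent.Results.MP_350f26_co.CliquesOneModFour
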