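import Pool.Agent.H28BS.CliqueZero

/-!
# Looped cliques of unbounded size, of both types, in `Γ_n`, `n ≡ 0 (mod 4)`
-/

namespace Pool.Agent.Results.MP_350f26_co.CliquesZeroModFour

open Pool.Agent.H28BS

/-- Let `s = 4 * 2^a' * 10^b' * 26^c'`, `g = 4 * 2^a * 10^b * 26^c` and `n = 2sg + s + g` (so `4 ∣ n`).  The
graph `Γ_n` contains a complete graph with a loop at every vertex on at least `(b+1)(c+1)(b'+1)(c'+1)`
vertices, all of the same type: odd if exactly one of `s`, `g` equals `4`, and even otherwise. -/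
theorem result (a b c a' b' c' s g n : ℕ) (hs : s = 4 * 2 ^ a' * 10 ^ b' * 26 ^ c')
    (hg : g = 4 * 2 ^ a * 10 ^ b * 26 ^ c) (hn : n = 2 * s * g + s + g) :
    ∃ S : Finset (Vertex n), (b + 1) * (c + 1) * (b' + 1) * (c' + 1) ≤ S.card ∧
      (∀ x ∈ S, ∀ y ∈ S, Adj n x y) ∧
      (∀ x ∈ S, (∃ r ∈ x.1, r % 4 = 2) ↔ ¬ (a + b + c = 0 ↔ a' + b' + c' = 0)) :=
  clique_zero a b c a' b' c' hs hg hn

end Pool.Agent.Results.MP_350f26_co.CliquesZeroModFour
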