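import Pool.Agent.H28BS.Exist

/-!
# A two-parameter infinite family of base sequences `BS(n+1,n)`

If `s` and `g` are Golay numbers, then base sequences `BS(n+1,n)` exist for `n = 2sg + s + g`, that is for
`2n + 1 = (2s+1)(2g+1)`; so `Γ_n` has an edge or a loop.  With Golay pairs `(P;Q)` of length `g` in the
variable `z` and `(F;G)` of length `s` in the variable `u = z^(2g+1)`, and with `y = z^g`, the half sums
`(A+B)/2`, `(A-B)/2`, `(C+D)/2`, `(C-D)/2` are, up to monomial factors and reversal,
`Q * rev G + u^s P + y F`, `u^s y - y^2 conj P * F`, `Q - u G P`, `y^2 G - y Q * rev F`: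
an octonion product of `(1,P,Q)` and `(1,F,G)`, arranged so that the supports tile.
-/

namespace Pool.Agent.Results.MP_350f26_co.NewBaseSequences

open Pool.Agent.H28BS

/-- For all Golay numbers `s, g ≥ 1`, the graph `Γ_n` with `n = 2sg + s + g` has an edge or a loop, so that
`BS(n+1,n)` is nonempty. -/
theorem result (s g : ℕ) (hs : 1 ≤ s) (hg : 1 ≤ g) (h1 : GolayNumber s) (h2 : GolayNumber g) :
    ∃ p q : Vertex (2 * s * g + s + g), Adj (2 * s * g + s + g) p q := by
  obtain ⟨A, B, C, D, h⟩ := base_exists hs hg h1 h2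
  exact exists_adj_of_base h

end Pool.Agent.Results.MP_350f26_co.NewBaseSequences
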